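import Pool.Agent.Q100.RSeq.Semi

set_option autoImplicit false

/-!
Every semidihedral group of order `2 ^ n`, `n ≥ 4`, is R-sequenceable.
-/

namespace Pool.Agent.Results.MP_d3366a_al.Semidihedral

open Pool.Agent.Q100.RSeq

/-- The semidihedral group `⟨a, b | a ^ (2 ^ (n-1)) = b ^ 2 = 1, b a b⁻¹ = a ^ (2 ^ (n-2) - 1)⟩`,
as a presented group; `rels M r` is the set of the three relators
`a ^ M`, `b ^ 2`, `b * a * b⁻¹ * (a ^ r)⁻¹`. -/
abbrev SD (n : ℕ) : Type := PresentedGroup (rels (2 ^ (n - 1)) (2 ^ (n - 2) - 1))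

/-- The function `Y` for `J = 8 P`. -/
def Y (P i : ℤ) : ℤ :=
  if i % 2 = 1 then
    (if i < 2 * P then 11 * P - (i - 1) / 2
     else if i < 8 * P then 6 * P - (i - 2 * P - 1) / 2
     else 16 * P - 1 - (i - 8 * P - 1) / 2)
  else
    (if i < 2 * P then 12 * P - 1 - (i - 2) / 2
     else if i < 10 * P then 26 * P - (i - 2 * P) / 2
     else if i < 16 * P then 3 * P - (i - 10 * P) / 2
     else 16 * P)

/-- Membership in segments. -/
theorem Y_mem {P i : ℤ} (hP : 1 ≤ P) (h1 : 1 ≤ i) (h2 : i ≤ 16 * P) :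
    (1 ≤ Y P i ∧ Y P i ≤ 6 * P) ∨ (10 * P + 1 ≤ Y P i ∧ Y P i ≤ 16 * P) ∨
      (22 * P + 1 ≤ Y P i ∧ Y P i ≤ 26 * P) := by
  unfold Y
  split_ifs <;> omega

theorem U_mem {P i : ℤ} (hP : 1 ≤ P) (h1 : 1 ≤ i) (h2 : i < 16 * P) :
    (8 * P + 1 ≤ Y P i + i ∧ Y P i + i ≤ 16 * P - 1) ∨
      (24 * P ≤ Y P i + i ∧ Y P i + i ≤ 32 * P - 1) := by
  unfold Y
  split_ifs <;> omega

theorem Y_inj {P i j : ℤ} (h1 : 1 ≤ i) (h2 : i ≤ 16 * P) (h3 : 1 ≤ j)
    (h4 : j ≤ 16 * P) (h : Y P i = Y P j) : i = j := by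
  unfold Y at h
  split_ifs at h <;> omega

theorem U_inj {P i j : ℤ} (h1 : 1 ≤ i) (h2 : i < 16 * P) (h3 : 1 ≤ j)
    (h4 : j < 16 * P) (h : Y P i + i = Y P j + j) : i = j := by
  unfold Y at h
  split_ifs at h <;> omega

theorem dvd_cases {M d : ℤ} (hM : 0 < M) (h : M ∣ d) (h1 : -(2 * M) < d) (h2 : d < 2 * M) :
    d = -M ∨ d = 0 ∨ d = M := by
  obtain ⟨t, rfl⟩ := h
  have h3 : -2 < t := by nlinarith
  have h4 : t < 2 := by nlinarith
  have h5 : t = -1 ∨ t = 0 ∨ t = 1 := by omega
  rcases h5 with rfl | rfl | rfl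
  · left; ring
  · right; left; ring
  · right; right; ring

theorem large {G : Type*} [Group G] {a b : G} {P : ℕ} (hP : 1 ≤ P)
    (F : Frame (4 * (8 * P)) (16 * (P : ℤ) - 1) a b) : RSequenceable G := by
  have hP' : (1 : ℤ) ≤ P := by exact_mod_cast hP
  refine Semi.main (J := 8 * P) (by omega) F (Y P) ?_ ?_ ?_ ?_ ?_ ?_
  · push_cast
    unfold Y
    split_ifs <;> omega
  · intro i j h1 h2 h3 h4 h
    push_cast at h2 h4 h
    have m1 := Y_mem hP' h1 (by omega)
    have m2 := Y_mem hP' h3 (by omega)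
    rw [show 2 * (8 * (P : ℤ)) = 16 * P by ring] at h
    rcases dvd_cases (M := 16 * (P : ℤ)) (by omega) h (by omega) (by omega) with h | h | h
    · omega
    · exact Y_inj (P := (P : ℤ)) h1 (by omega) h3 (by omega) (by omega)
    · omega
  · intro i j h1 h2 h3 h4 h
    push_cast at h2 h4 h
    have m1 := Y_mem hP' h1 (by omega)
    have m2 := Y_mem hP' h3 (by omega)
    rw [show 4 * (8 * (P : ℤ)) = 32 * P by ring] at h
    rcases dvd_cases (M := 32 * (P : ℤ)) (by omega) h (by omega) (by omega) with h | h | h <;> omega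
  · intro i j h1 h2 h3 h4 h
    push_cast at h2 h4 h
    have m1 := U_mem hP' h1 (by omega)
    have m2 := U_mem hP' h3 (by omega)
    rw [show 4 * (8 * (P : ℤ)) = 32 * P by ring] at h
    rcases dvd_cases (M := 32 * (P : ℤ)) (by omega) h (by omega) (by omega) with h | h | h
    · omega
    · exact U_inj (P := (P : ℤ)) h1 (by omega) h3 (by omega) (by omega)
    · omega
  · intro i h1 h2 h
    push_cast at h2 h
    have m1 := U_mem hP' h1 (by omega)
    rw [show 2 * (8 * (P : ℤ)) = 16 * P by ring] at h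
    rcases dvd_cases (M := 16 * (P : ℤ)) (by omega) h (by omega) (by omega) with h | h | h <;>
      omega
  · intro i j h1 h2 h3 h4 h
    push_cast at h2 h4 h
    have m1 := U_mem hP' h1 (by omega)
    have m2 := U_mem hP' h3 (by omega)
    generalize Y P i + i = u at *
    generalize Y P j + j = v at *
    rw [show 4 * (8 * (P : ℤ)) = 32 * P by ring] at h
    rcases Int.even_or_odd' v with ⟨w, rfl | rfl⟩
    · have h5 : 32 * (P : ℤ) ∣ u + 2 * w := by
        have h6 : 32 * (P : ℤ) ∣ 32 * P * w := ⟨w, rfl⟩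
        have := dvd_add h h6
        have e : u - (16 * (P : ℤ) - 1) * (2 * w) + 32 * P * w = u + 2 * w := by ring
        rwa [e] at this
      rcases dvd_cases (M := 32 * (P : ℤ)) (by omega) h5 (by omega) (by omega) with h | h | h <;> omega
    · have h5 : 32 * (P : ℤ) ∣ u + (2 * w + 1) - 16 * P := by
        have h6 : 32 * (P : ℤ) ∣ 32 * P * w := ⟨w, rfl⟩
        have := dvd_add h h6
        have e : u - (16 * (P : ℤ) - 1) * (2 * w + 1) + 32 * P * w = u + (2 * w + 1) - 16 * P := by ring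
        rwa [e] at this
      rcases dvd_cases (M := 32 * (P : ℤ)) (by omega) h5 (by omega) (by omega) with h | h | h <;> omega

/-- `Y` for `n = 4`. -/
def Y4 (i : ℤ) : ℤ := if i = 1 then 6 else if i = 2 then 1 else if i = 3 then 7 else 4

theorem small4 {G : Type*} [Group G] {a b : G} (F : Frame (4 * 2) 3 a b) : RSequenceable G := by
  refine Semi.main (J := 2) (by omega) F Y4 ?_ ?_ ?_ ?_ ?_ ?_
  · simp [Y4]
  · intro i j h1 h2 h3 h4
    push_cast at h2 h4
    interval_cases i <;> interval_cases j <;> decide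
  · intro i j h1 h2 h3 h4
    push_cast at h2 h4
    interval_cases i <;> interval_cases j <;> decide
  · intro i j h1 h2 h3 h4
    push_cast at h2 h4
    interval_cases i <;> interval_cases j <;> decide
  · intro i h1 h2
    push_cast at h2
    interval_cases i <;> decide
  · intro i j h1 h2 h3 h4
    push_cast at h2 h4
    interval_cases i <;> interval_cases j <;> decide

/-- `Y` for `n = 5`. -/
def Y5 (i : ℤ) : ℤ :=
  if i = 1 then 13 else if i = 2 then 3 else if i = 3 then 12 else if i = 4 then 2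
  else if i = 5 then 7 else if i = 6 then 1 else if i = 7 then 6 else 8

theorem small5 {G : Type*} [Group G] {a b : G} (F : Frame (4 * 4) 7 a b) : RSequenceable G := by
  refine Semi.main (J := 4) (by omega) F Y5 ?_ ?_ ?_ ?_ ?_ ?_
  · simp [Y5]
  · intro i j h1 h2 h3 h4
    push_cast at h2 h4
    interval_cases i <;> interval_cases j <;> decide
  · intro i j h1 h2 h3 h4
    push_cast at h2 h4
    interval_cases i <;> interval_cases j <;> decide
  · intro i j h1 h2 h3 h4
    push_cast at h2 h4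
    interval_cases i <;> interval_cases j <;> decide
  · intro i h1 h2
    push_cast at h2
    interval_cases i <;> decide
  · intro i j h1 h2 h3 h4
    push_cast at h2 h4
    interval_cases i <;> interval_cases j <;> decide

/-- **Every semidihedral `2`-group is R-sequenceable.** For every `n ≥ 4` the group `SD n` has
order `2 ^ n` and is R-sequenceable. -/
theorem result : ∀ n : ℕ, 4 ≤ n → Nat.card (SD n) = 2 ^ n ∧ RSequenceable (SD n) := by
  intro n hn
  have e1 : 2 ^ (n - 1) = 2 * 2 ^ (n - 2) := by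
    rw [← pow_succ']; congr 1; omega
  have e2 : 2 ^ n = 2 * 2 ^ (n - 1) := by
    rw [← pow_succ']; congr 1; omega
  have hq : 4 ≤ 2 ^ (n - 2) := by
    calc 4 = 2 ^ 2 := by norm_num
      _ ≤ 2 ^ (n - 2) := Nat.pow_le_pow_right (by norm_num) (by omega)
  have F := presented_frame (2 ^ (n - 1)) (2 ^ (n - 2) - 1) (by positivity) (by
      have h2 : ∃ w, 2 ^ (n - 2) = 2 * w := ⟨2 ^ (n - 3), by rw [← pow_succ']; congr 1; omega⟩
      obtain ⟨w, hw⟩ := h2
      rw [e1, hw]
      rw [hw] at hq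
      refine ⟨(w : ℤ) - 1, ?_⟩
      push_cast [show 1 ≤ 2 * w by omega]
      ring) (by
      rw [e1]
      generalize 2 ^ (n - 2) = q at hq
      intro h
      have := Semi.small_dvd h (by omega) (by omega)
      omega)
  refine ⟨by rw [F.card, e2], ?_⟩
  rcases (by omega : n = 4 ∨ n = 5 ∨ 6 ≤ n) with rfl | rfl | h6
  · exact small4 F
  · exact small5 F
  · obtain ⟨k, rfl⟩ := Nat.exists_eq_add_of_le h6
    have e3 : 2 ^ (6 + k - 1) = 4 * (8 * 2 ^ k) := by
      rw [show 6 + k - 1 = 5 + k by omega, pow_add]; ring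
    have e4 : (((2 ^ (6 + k - 2) - 1 : ℕ)) : ℤ) = 16 * ((2 ^ k : ℕ) : ℤ) - 1 := by
      rw [show 6 + k - 2 = 4 + k by omega, pow_add]
      have : 1 ≤ 2 ^ k := Nat.one_le_two_pow
      omega
    have F' : Frame (G := SD (6 + k)) (4 * (8 * 2 ^ k)) (16 * ((2 ^ k : ℕ) : ℤ) - 1)
        (PresentedGroup.of 0) (PresentedGroup.of 1) := by
      have F2 := F
      rw [e4] at F2
      exact e3 ▸ F2
    exact large (P := 2 ^ k) Nat.one_le_two_pow F'

end Pool.Agent.Results.MP_d3366a_al.Semidihedral
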